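import Mathlib

/-!
Index set for the countably compact group: an inductive type `X` closed under countable
sequences, of cardinality at most the continuum, with an almost disjoint family indexed by it.
-/

namespace Pool.Agent.R603.CCGroup

open Cardinal Filter Set

/-- The index set: a base point, and a new point for every label, every sequence of finite subsets
of `ℕ`, and every sequence of older points. -/
inductive X : Type
  | base : X
  | mk : Bool → (ℕ → Finset ℕ) → (ℕ → X) → X

/-- The subelements of a point. -/
def sub : X → Set X
  | .base => {.base}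
  | .mk b c g => insert (.mk b c g) (⋃ i, sub (g i))

theorem self_mem_sub (x : X) : x ∈ sub x := by
  cases x <;> simp [sub]

theorem countable_sub (x : X) : (sub x).Countable := by
  induction x with
  | base => simp [sub]
  | mk b c g ih =>
    simp only [sub]
    exact (Set.countable_iUnion ih).insert _

theorem sub_closed (x : X) : ∀ (b : Bool) (c : ℕ → Finset ℕ) (g : ℕ → X) (i : ℕ),
    X.mk b c g ∈ sub x → g i ∈ sub x := by
  induction x with
  | base => intro b c g i h; simp [sub] at h
  | mk b' c' g' ih =>
    intro b c g i h
    simp only [sub, Set.mem_insert_iff, Set.mem_iUnion] at h ⊢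
    rcases h with h | ⟨j, hj⟩
    · injection h with h1 h2 h3
      subst h1 h2 h3
      exact Or.inr ⟨i, self_mem_sub _⟩
    · exact Or.inr ⟨j, ih j b c g i hj⟩

theorem mk_ne (x : X) : ∀ (b : Bool) (c : ℕ → Finset ℕ) (g : ℕ → X) (i : ℕ),
    x = X.mk b c g → x ≠ g i := by
  induction x with
  | base => intro b c g i h; cases h
  | mk b' c' g' ih =>
    intro b c g i h
    injection h with h1 h2 h3
    subst h1 h2 h3
    intro h
    exact ih i b' c' g' i h.symm rfl

/-- Comparison with a `W`-type. -/
def Wβ : Option (Bool × (ℕ → Finset ℕ)) → Type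
  | none => PEmpty
  | some _ => ℕ

/-- The comparison map. -/
def toW : X → WType Wβ
  | .base => WType.mk none (fun e => nomatch e)
  | .mk b c g => WType.mk (some (b, c)) (fun i : ℕ => toW (g i))

theorem toW_injective : Function.Injective toW := by
  intro x
  induction x with
  | base =>
    intro y h
    cases y with
    | base => rfl
    | mk b c g =>
      simp only [toW] at h
      injection h with h1 h2
      cases h1
  | mk b c g ih =>
    intro y h
    cases y with
    | base =>
      simp only [toW] at h
      injection h with h1 h2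
      cases h1
    | mk b' c' g' =>
      simp only [toW] at h
      injection h with h1 h2
      injection h1 with h1
      injection h1 with h3 h4
      subst h3 h4
      congr 1
      funext i
      exact ih i (congrFun h2 i)

theorem mk_X_le : #X ≤ 𝔠 := by
  refine (Cardinal.mk_le_of_injective toW_injective).trans ?_
  refine WType.cardinalMk_le_of_le ?_
  have h : ∀ a : Option (Bool × (ℕ → Finset ℕ)), 𝔠 ^ #(Wβ a) ≤ 𝔠 := by
    intro a
    cases a with
    | none =>
      have : #(Wβ none) = 0 := by
        simp [Wβ]
      rw [this, Cardinal.power_zero]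
      exact Cardinal.one_le_aleph0.trans Cardinal.aleph0_le_continuum
    | some a =>
      have : #(Wβ (some a)) = ℵ₀ := by
        simp [Wβ]
      rw [this, Cardinal.continuum_power_aleph0]
  refine (Cardinal.sum_le_sum _ (fun _ => 𝔠) h).trans ?_
  rw [Cardinal.sum_const']
  have h2 : #(Option (Bool × (ℕ → Finset ℕ))) ≤ 𝔠 := by
    rw [Cardinal.mk_option]
    have : #(Bool × (ℕ → Finset ℕ)) ≤ 𝔠 := by
      rw [Cardinal.mk_prod]
      simp only [Cardinal.lift_id, Cardinal.mk_bool, Cardinal.mk_pi]
      simp
    refine (add_le_add this (Cardinal.one_le_aleph0.trans Cardinal.aleph0_le_continuum)).trans ?_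
    simp
  calc _ ≤ 𝔠 * 𝔠 := mul_le_mul' h2 le_rfl
    _ = 𝔠 := Cardinal.continuum_mul_self

/-- an injection into the Cantor space -/
theorem exists_code : ∃ ι : X → (ℕ → Bool), Function.Injective ι := by
  have h : #X ≤ #(ℕ → Bool) := by
    refine mk_X_le.trans ?_
    simp
  obtain ⟨e⟩ := Cardinal.le_def _ _ |>.1 h
  exact ⟨e, e.injective⟩

/-- An almost disjoint family indexed by `X`. -/
theorem exists_ad : ∃ A : X → Set ℕ, (∀ x, (A x).Infinite) ∧
    ∀ x y, x ≠ y → (A x ∩ A y).Finite := by
  obtain ⟨ι, hι⟩ := exists_code
  let code : X → ℕ → ℕ := fun x n => Encodable.encode (List.ofFn (fun i : Fin n => ι x i))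
  have hcode : ∀ x y n m, code x n = code y m → n = m ∧ ∀ i < n, ι x i = ι y i := by
    intro x y n m h
    have h1 := Encodable.encode_injective h
    have h2 : n = m := by
      have := congrArg List.length h1
      simpa using this
    subst h2
    refine ⟨rfl, fun i hi => ?_⟩
    have := List.ofFn_injective h1
    exact congrFun this ⟨i, hi⟩
  refine ⟨fun x => Set.range (code x), fun x => ?_, fun x y hxy => ?_⟩
  · exact Set.infinite_range_of_injective (fun n m h => (hcode x x n m h).1)
  · have : ∃ i, ι x i ≠ ι y i := by
      by_contra hcon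
      push Not at hcon
      exact hxy (hι (funext hcon))
    obtain ⟨i, hi⟩ := this
    refine ((Set.finite_Iic i).image (code x)).subset ?_
    rintro k ⟨⟨n, rfl⟩, ⟨m, hm⟩⟩
    refine ⟨n, ?_, rfl⟩
    by_contra hcon
    simp only [Set.mem_Iic, not_le] at hcon
    exact hi ((hcode x y n m hm.symm).2 i hcon)

end Pool.Agent.R603.CCGroup
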