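import Mathlib

/-!
The ultrafilters along an almost disjoint family and the key combinatorial lemma.
-/

namespace Pool.Agent.R603.CCGroup

open Filter Set

/-- The blocks. -/
def blk (n : ℕ) : Finset ℕ := Finset.Ico n.factorial (n + 1).factorial

theorem card_blk (n : ℕ) : (blk n).card = n * n.factorial := by
  rw [blk, Nat.card_Ico, Nat.factorial_succ]
  rw [Nat.succ_mul]; simp

theorem blk_disj {n m t : ℕ} (h : t ∈ blk n) (h' : t ∈ blk m) : n = m := by
  rw [blk, Finset.mem_Ico] at h h'
  by_contra hne
  rcases lt_or_gt_of_ne hne with hlt | hlt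
  · have : (n + 1).factorial ≤ m.factorial := Nat.factorial_le (Nat.succ_le_of_lt hlt)
    omega
  · have : (m + 1).factorial ≤ n.factorial := Nat.factorial_le (Nat.succ_le_of_lt hlt)
    omega

/-- The filter attached to a set of blocks. -/
def blkFilter (A : Set ℕ) : Filter ℕ where
  sets := {U | ∃ m k : ℕ, ∀ n ∈ A, k ≤ n → ∃ E : Finset ℕ, E.card ≤ m * n.factorial ∧
    ∀ t ∈ blk n, t ∈ U ∨ t ∈ E}
  univ_sets := ⟨0, 0, fun n _ _ => ⟨∅, by simp, fun t _ => Or.inl trivial⟩⟩
  sets_of_superset := by
    rintro U U' ⟨m, k, h⟩ hUU'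
    refine ⟨m, k, fun n hn hkn => ?_⟩
    obtain ⟨E, hE, hE'⟩ := h n hn hkn
    exact ⟨E, hE, fun t ht => (hE' t ht).imp_left (fun h => hUU' h)⟩
  inter_sets := by
    classical
    rintro U U' ⟨m, k, h⟩ ⟨m', k', h'⟩
    refine ⟨m + m', max k k', fun n hn hkn => ?_⟩
    obtain ⟨E, hE, hEt⟩ := h n hn (le_trans (le_max_left _ _) hkn)
    obtain ⟨E', hE', hEt'⟩ := h' n hn (le_trans (le_max_right _ _) hkn)
    refine ⟨E ∪ E', (Finset.card_union_le _ _).trans ?_, fun t ht => ?_⟩
    · rw [add_mul]; exact add_le_add hE hE'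
    · rcases hEt t ht with h1 | h1
      · rcases hEt' t ht with h2 | h2
        · exact Or.inl ⟨h1, h2⟩
        · exact Or.inr (Finset.mem_union_right _ h2)
      · exact Or.inr (Finset.mem_union_left _ h1)

theorem blkFilter_neBot {A : Set ℕ} (hA : A.Infinite) : (blkFilter A).NeBot := by
  constructor
  intro h
  have h1 : (∅ : Set ℕ) ∈ blkFilter A := by rw [h]; exact Filter.mem_bot
  obtain ⟨m, k, h1⟩ := h1
  obtain ⟨n, hn, hnk⟩ := hA.exists_gt (max m k)
  obtain ⟨E, hE, hE'⟩ := h1 n hn ((le_max_right _ _).trans hnk.le)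
  have h2 : blk n ⊆ E := fun t ht => by
    rcases hE' t ht with h | h
    · exact absurd h (by simp)
    · exact h
  have h3 := (Finset.card_le_card h2).trans hE
  rw [card_blk] at h3
  have h4 : m < n := lt_of_le_of_lt (le_max_left _ _) hnk
  have h5 := Nat.factorial_pos n
  have := Nat.mul_lt_mul_of_pos_right h4 h5
  omega

theorem blkFilter_le_cofinite (A : Set ℕ) : blkFilter A ≤ Filter.cofinite := by
  intro U hU
  rw [Filter.mem_cofinite] at hU
  obtain ⟨k, hk⟩ := hU.bddAbove
  refine ⟨0, k + 1, fun n _ hkn => ⟨∅, by simp, fun t ht => Or.inl ?_⟩⟩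
  by_contra hcon
  have h1 : t ≤ k := hk hcon
  rw [blk, Finset.mem_Ico] at ht
  have := Nat.self_le_factorial n
  omega

/-- The key lemma. -/
theorem star {K V X : Type*} [Field K] [AddCommGroup V] [Module K V] (A : X → Set ℕ)
    (had : ∀ x y, x ≠ y → (A x ∩ A y).Finite) (C : Set X) (hC : C.Countable)
    (g : X → ℕ → V) (hg : ∀ x ∈ C, LinearIndependent K (g x)) (d : V) (hd : d ≠ 0) :
    ∃ Φ : V →ₗ[K] K, Φ d = 1 ∧ ∀ x ∈ C, ∀ᶠ n in blkFilter (A x), Φ (g x n) = 0 := by
  classical
  -- separate the sets
  obtain ⟨r, hr⟩ := Set.countable_iff_exists_injOn.1 hC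
  have hk : ∀ x ∈ C, ∃ k, ∀ y ∈ C, r y < r x → ∀ n ∈ A x, n ∈ A y → n < k := by
    intro x hx
    have hfin : {y | y ∈ C ∧ r y < r x}.Finite := by
      have : ((fun y => r y) '' {y | y ∈ C ∧ r y < r x}).Finite :=
        (Set.finite_Iio (r x)).subset (by rintro _ ⟨y, hy, rfl⟩; exact hy.2)
      exact Set.Finite.of_finite_image this (fun a ha b hb h => hr ha.1 hb.1 h)
    have hfin2 : (⋃ y ∈ {y | y ∈ C ∧ r y < r x}, A x ∩ A y).Finite := by
      refine hfin.biUnion (fun y hy => had x y ?_)
      rintro rfl
      exact lt_irrefl _ hy.2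
    obtain ⟨k, hk⟩ := hfin2.bddAbove
    refine ⟨k + 1, fun y hy hyx n hn hn' => Nat.lt_succ_of_le (hk ?_)⟩
    exact Set.mem_biUnion (show y ∈ {y | y ∈ C ∧ r y < r x} from ⟨hy, hyx⟩) ⟨hn, hn'⟩
  choose! k hk using hk
  have hdisj : ∀ x ∈ C, ∀ y ∈ C, ∀ n, n ∈ A x → n ∈ A y → k x ≤ n → k y ≤ n → x = y := by
    intro x hx y hy n hnx hny hkx hky
    by_contra hne
    have : r x ≠ r y := fun h => hne (hr hx hy h)
    rcases lt_or_gt_of_ne this with h | h
    · have := hk y hy x hx h n hny hnx
      omega
    · have := hk x hx y hy h n hnx hny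
      omega
  -- the sequence
  let P : ℕ → X → Prop := fun t x => x ∈ C ∧ ∃ n ∈ A x, k x ≤ n ∧ t ∈ blk n
  have hPu : ∀ t x y, P t x → P t y → x = y := by
    rintro t x y ⟨hx, n, hn, hkn, htn⟩ ⟨hy, m, hm, hkm, htm⟩
    obtain rfl := blk_disj htn htm
    exact hdisj x hx y hy n hn hm hkn hkm
  let v : ℕ → V := fun t => if h : ∃ x, P t x then g h.choose t else 0
  have hv : ∀ t x, P t x → v t = g x t := by
    intro t x hx
    have h : ∃ x, P t x := ⟨x, hx⟩
    have h2 : h.choose = x := hPu t _ _ h.choose_spec hx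
    simp only [v, dif_pos h, h2]
  -- the greedy set
  let J : Set ℕ := {t | v t ∉ Submodule.span K (insert d (v '' Set.Iio t))}
  have hJ1 : d ∉ Submodule.span K (v '' J) := by
    intro hcon
    have h1 : ∀ N : ℕ, d ∉ Submodule.span K (v '' (J ∩ Set.Iio N)) := by
      intro N
      induction N with
      | zero =>
        simp [hd]
      | succ t ih =>
        by_cases ht : t ∈ J
        · have : v '' (J ∩ Set.Iio (t + 1)) = insert (v t) (v '' (J ∩ Set.Iio t)) := by
            rw [← Set.image_insert_eq]
            congr 1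
            ext s
            simp only [Set.mem_inter_iff, Set.mem_Iio, Set.mem_insert_iff]
            constructor
            · rintro ⟨h1, h2⟩
              rcases Nat.lt_succ_iff_lt_or_eq.1 h2 with h | h
              · exact Or.inr ⟨h1, h⟩
              · exact Or.inl h
            · rintro (rfl | ⟨h1, h2⟩)
              · exact ⟨ht, Nat.lt_succ_self _⟩
              · exact ⟨h1, Nat.lt_succ_of_lt h2⟩
          rw [this]
          intro h
          have h2 := mem_span_insert_exchange h ih
          refine ht (Submodule.span_mono ?_ h2)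
          exact Set.insert_subset_insert (Set.image_mono Set.inter_subset_right)
        · have : J ∩ Set.Iio (t + 1) = J ∩ Set.Iio t := by
            ext s
            simp only [Set.mem_inter_iff, Set.mem_Iio]
            constructor
            · rintro ⟨h1, h2⟩
              rcases Nat.lt_succ_iff_lt_or_eq.1 h2 with h | h
              · exact ⟨h1, h⟩
              · exact absurd (h ▸ h1) ht
            · rintro ⟨h1, h2⟩
              exact ⟨h1, Nat.lt_succ_of_lt h2⟩
          rw [this]; exact ih
    have h2 : v '' J = ⋃ N : ℕ, v '' (J ∩ Set.Iio N) := by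
      rw [← Set.image_iUnion, ← Set.inter_iUnion]
      congr 1
      have : (⋃ N : ℕ, Set.Iio N) = (Set.univ : Set ℕ) := by
        ext s; simp only [Set.mem_iUnion, Set.mem_Iio, Set.mem_univ, iff_true]
        exact ⟨s + 1, Nat.lt_succ_self _⟩
      rw [this, Set.inter_univ]
    rw [h2, Submodule.span_iUnion] at hcon
    have hdir : Directed (· ≤ ·) (fun N : ℕ => Submodule.span K (v '' (J ∩ Set.Iio N))) := by
      apply Monotone.directed_le
      intro a b hab
      exact Submodule.span_mono (Set.image_mono
        (Set.inter_subset_inter_right _ (Set.Iio_subset_Iio hab)))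
    rw [Submodule.mem_iSup_of_directed _ hdir] at hcon
    obtain ⟨N, hN⟩ := hcon
    exact h1 N hN
  have hJ2 : ∀ N : ℕ, Submodule.span K (insert d (v '' Set.Iio N)) ≤
      Submodule.span K (insert d (v '' (J ∩ Set.Iio N))) := by
    intro N
    induction N with
    | zero => simp
    | succ t ih =>
      have hIio : v '' Set.Iio (t + 1) = insert (v t) (v '' Set.Iio t) := by
        rw [← Set.image_insert_eq]
        congr 1
        ext s
        simp only [Set.mem_Iio, Set.mem_insert_iff]
        omega
      have hsub : Submodule.span K (insert d (v '' (J ∩ Set.Iio t))) ≤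
          Submodule.span K (insert d (v '' (J ∩ Set.Iio (t + 1)))) :=
        Submodule.span_mono (Set.insert_subset_insert (Set.image_mono
          (Set.inter_subset_inter_right _ (Set.Iio_subset_Iio (Nat.le_succ t)))))
      have hvt : v t ∈ Submodule.span K (insert d (v '' (J ∩ Set.Iio (t + 1)))) := by
        by_cases ht : t ∈ J
        · exact Submodule.subset_span (Set.mem_insert_of_mem _
            ⟨t, ⟨ht, Nat.lt_succ_self t⟩, rfl⟩)
        · simp only [J, Set.mem_ofPred_eq, not_not] at ht
          exact hsub (ih ht)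
      rw [hIio, Submodule.span_le]
      intro y hy
      rcases hy with rfl | rfl | hy
      · exact Submodule.subset_span (Set.mem_insert _ _)
      · exact hvt
      · exact hsub (ih (Submodule.subset_span (Set.mem_insert_of_mem _ hy)))
  have hJ3 : ∀ x ∈ C, ∀ n ∈ A x, k x ≤ n →
      n * n.factorial ≤ 1 + n.factorial + ((blk n).filter (· ∈ J)).card := by
    intro x hx n hn hkn
    have hli : LinearIndependent K (fun t : (blk n) => g x t) :=
      (hg x hx).comp _ Subtype.val_injective
    have h1 := finrank_span_eq_card hli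
    rw [Fintype.card_coe, card_blk] at h1
    let T : Finset V := insert d (((Finset.range (n + 1).factorial).filter (· ∈ J)).image v)
    have h2 : Submodule.span K (Set.range (fun t : (blk n) => g x t)) ≤
        Submodule.span K (T : Set V) := by
      rw [Submodule.span_le]
      rintro _ ⟨t, rfl⟩
      have ht := t.2
      have h3 : g x t = v t := (hv t x ⟨hx, n, hn, hkn, ht⟩).symm
      have h4 : v t ∈ Submodule.span K (insert d (v '' Set.Iio (n + 1).factorial)) := by
        apply Submodule.subset_span
        refine Set.mem_insert_of_mem _ ⟨t, ?_, rfl⟩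
        exact (Finset.mem_Ico.1 ht).2
      have h5 := hJ2 _ h4
      show g x t ∈ Submodule.span K (T : Set V)
      rw [h3]
      refine Submodule.span_mono ?_ h5
      intro y hy
      rcases hy with rfl | ⟨s, ⟨hs, hs2⟩, rfl⟩
      · simp [T]
      · simp only [T, Finset.coe_insert, Finset.coe_image, Finset.coe_filter, Finset.mem_range]
        exact Set.mem_insert_of_mem _ ⟨s, ⟨hs2, hs⟩, rfl⟩
    have h3 := Submodule.finrank_mono h2
    have h4 : Module.finrank K (Submodule.span K (T : Set V)) ≤ T.card :=
      finrank_span_finset_le_card T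
    have h5 : T.card ≤ 1 + n.factorial + ((blk n).filter (· ∈ J)).card := by
      refine (Finset.card_insert_le _ _).trans ?_
      have h6 : ((Finset.range (n + 1).factorial).filter (· ∈ J)) ⊆
          Finset.range n.factorial ∪ (blk n).filter (· ∈ J) := by
        intro s hs
        simp only [Finset.mem_filter, Finset.mem_range, Finset.mem_union, blk,
          Finset.mem_Ico] at hs ⊢
        by_cases h : s < n.factorial
        · exact Or.inl h
        · exact Or.inr ⟨⟨by omega, hs.1⟩, hs.2⟩
      have h7 := (Finset.card_le_card h6).trans (Finset.card_union_le _ _)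
      rw [Finset.card_range] at h7
      have h8 : (((Finset.range (n + 1).factorial).filter (· ∈ J)).image v).card ≤ _ :=
        Finset.card_image_le.trans h7
      omega
    omega
  -- the functional
  obtain ⟨Φ, hΦ1, hΦ2⟩ := Submodule.exists_dual_map_eq_bot_of_notMem hJ1 inferInstance
  refine ⟨(Φ d)⁻¹ • Φ, ?_, ?_⟩
  · simp [hΦ1]
  · intro x hx
    have hz : ∀ t ∈ J, Φ (v t) = 0 := by
      intro t ht
      have : Φ (v t) ∈ (Submodule.span K (v '' J)).map Φ :=
        ⟨v t, Submodule.subset_span ⟨t, ht, rfl⟩, rfl⟩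
      rw [hΦ2] at this
      exact (Submodule.mem_bot K).1 this
    refine ⟨2, max (k x) 1, fun n hn hkn => ⟨(blk n).filter (· ∉ J), ?_, fun t ht => ?_⟩⟩
    · have h1 := hJ3 x hx n hn ((le_max_left _ _).trans hkn)
      have h2 := Finset.card_filter_add_card_filter_not (s := blk n) (· ∈ J)
      rw [card_blk] at h2
      have h3 := Nat.factorial_pos n
      omega
    · by_cases htJ : t ∈ J
      · left
        show ((Φ d)⁻¹ • Φ) (g x t) = 0
        have h3 : g x t = v t :=
          (hv t x ⟨hx, n, hn, (le_max_left _ _).trans hkn, ht⟩).symm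
        rw [h3]
        simp [hz t htJ]
      · right
        exact Finset.mem_filter.2 ⟨ht, htJ⟩

end Pool.Agent.R603.CCGroup
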