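import Mathlib
import Pool.Agent.R603.CCGroup.Index
import Pool.Agent.R603.CCGroup.Star

/-!
A countably compact Boolean group without nontrivial convergent sequences, of cardinality at most
the continuum (after Hrušák, van Mill, Ramos-García and Shelah).
-/

namespace Pool.Agent.R603.CCGroup

open Cardinal Filter Set Topology

/-- The almost disjoint family. -/
noncomputable def ad : X → Set ℕ := exists_ad.choose

theorem ad_infinite (x : X) : (ad x).Infinite := exists_ad.choose_spec.1 x

theorem ad_inter (x y : X) (h : x ≠ y) : (ad x ∩ ad y).Finite := exists_ad.choose_spec.2 x y h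

/-- The ultrafilters. -/
noncomputable def uf (x : X) : Ultrafilter ℕ :=
  @Ultrafilter.of _ (blkFilter (ad x)) (blkFilter_neBot (ad_infinite x))

theorem uf_le (x : X) : (uf x : Filter ℕ) ≤ blkFilter (ad x) :=
  @Ultrafilter.of_le _ _ (blkFilter_neBot (ad_infinite x))

theorem uf_le_cofinite (x : X) : (uf x : Filter ℕ) ≤ cofinite :=
  (uf_le x).trans (blkFilter_le_cofinite _)

/-- The underlying vector space. -/
abbrev V := X →₀ ZMod 2

/-- The basis vectors. -/
noncomputable def e (x : X) : V := Finsupp.single x 1

theorem e_injective : Function.Injective e := by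
  intro x y h
  exact Finsupp.single_left_injective one_ne_zero h

/-- The sequence coded by a point. -/
noncomputable def seqOf (c : ℕ → Finset ℕ) (g : ℕ → X) (n : ℕ) : V := ∑ i ∈ c n, e (g i)

/-- Every sequence of vectors is coded. -/
theorem exists_code_seq (f : ℕ → V) : ∃ c g, seqOf c g = f := by
  classical
  by_cases hne : (⋃ n, ((f n).support : Set X)).Nonempty
  · have hc : (⋃ n, ((f n).support : Set X)).Countable :=
      Set.countable_iUnion (fun n => (f n).support.countable_toSet)
    obtain ⟨g, hg⟩ := hc.exists_eq_range hne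
    have h1 : ∀ n, ∀ x ∈ (f n).support, ∃ i, g i = x := by
      intro n x hx
      have : x ∈ Set.range g := by
        rw [← hg]; exact Set.mem_iUnion.2 ⟨n, hx⟩
      exact this
    choose! i hi using h1
    refine ⟨fun n => (f n).support.image (i n), g, ?_⟩
    funext n
    rw [seqOf, Finset.sum_image]
    · have : ∀ x ∈ (f n).support, e (g (i n x)) = Finsupp.single x ((f n) x) := by
        intro x hx
        rw [hi n x hx, e]
        congr 1
        have h2 : (f n) x ≠ 0 := Finsupp.mem_support_iff.1 hx
        revert h2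
        generalize (f n) x = z
        revert z
        decide
      rw [Finset.sum_congr rfl this]
      exact Finsupp.sum_single (f n)
    · intro a ha b hb hab
      rw [← hi n a ha, ← hi n b hb, hab]
  · have h0 : ∀ n, f n = 0 := by
      intro n
      rw [← Finsupp.support_eq_empty]
      by_contra hcon
      obtain ⟨x, hx⟩ := Finset.nonempty_iff_ne_empty.2 hcon
      exact hne ⟨x, Set.mem_iUnion.2 ⟨n, hx⟩⟩
    refine ⟨fun _ => ∅, fun _ => X.base, ?_⟩
    funext n
    simp [seqOf, h0]

/-- The admissible functionals. -/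
def Adm : Set (V →ₗ[ZMod 2] ZMod 2) :=
  {Φ | ∀ b c g, LinearIndependent (ZMod 2) (seqOf c g) →
    ∀ᶠ n in (uf (X.mk b c g) : Filter ℕ), Φ (seqOf c g n) = Φ (e (X.mk b c g))}

open Classical in
/-- The recursive extension. -/
noncomputable def ext (D : Set X) (φ : X → ZMod 2) : X → ZMod 2
  | .base => φ .base
  | .mk b c g => if X.mk b c g ∈ D then φ (.mk b c g) else
      if (∀ᶠ n in (uf (X.mk b c g) : Filter ℕ), ∑ i ∈ c n, ext D φ (g i) = 1) then 1 else 0

theorem ext_mem (D : Set X) (φ : X → ZMod 2) (x : X) (hx : x ∈ D) : ext D φ x = φ x := by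
  cases x with
  | base => rfl
  | mk b c g => rw [ext, if_pos hx]

/-- the vectors used for the functional -/
theorem indep_add (b : Bool) (c : ℕ → Finset ℕ) (g : ℕ → X)
    (h : LinearIndependent (ZMod 2) (seqOf c g)) :
    LinearIndependent (ZMod 2) (fun n => seqOf c g n + e (X.mk b c g)) := by
  classical
  rw [linearIndependent_iff'] at h ⊢
  intro s a hsum i hi
  have h1 : ∑ i ∈ s, a i • (seqOf c g i + e (X.mk b c g)) =
      ∑ i ∈ s, a i • seqOf c g i + (∑ i ∈ s, a i) • e (X.mk b c g) := by
    rw [Finset.sum_smul, ← Finset.sum_add_distrib]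
    exact Finset.sum_congr rfl (fun i _ => smul_add _ _ _)
  rw [h1] at hsum
  have h2 : ∀ n, (seqOf c g n) (X.mk b c g) = 0 := by
    intro n
    rw [seqOf, Finsupp.finsetSum_apply]
    refine Finset.sum_eq_zero (fun i _ => ?_)
    rw [e, Finsupp.single_apply, if_neg]
    exact (mk_ne _ b c g i rfl).symm
  have h3 := DFunLike.congr_fun hsum (X.mk b c g)
  simp only [Finsupp.coe_add, Pi.add_apply, Finsupp.finsetSum_apply, Finsupp.coe_smul,
    Pi.smul_apply, h2, mul_zero, Finset.sum_const_zero, zero_add, e, Finsupp.single_eq_same,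
    smul_eq_mul, mul_one, Finsupp.coe_zero, Pi.zero_apply] at h3
  rw [h3, zero_smul, add_zero] at hsum
  exact h s a hsum i hi

theorem adm_separates (d : V) (hd : d ≠ 0) : ∃ Φ ∈ Adm, Φ d ≠ 0 := by
  classical
  let D : Set X := ⋃ x ∈ d.support, sub x
  have hDc : D.Countable := Set.Countable.biUnion d.support.countable_toSet
    (fun x _ => countable_sub x)
  have hDcl : ∀ b c g i, X.mk b c g ∈ D → g i ∈ D := by
    intro b c g i h
    simp only [D, Set.mem_iUnion] at h ⊢
    obtain ⟨x, hx, h⟩ := h
    exact ⟨x, hx, sub_closed x b c g i h⟩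
  have hdD : ∀ x ∈ d.support, x ∈ D := by
    intro x hx
    simp only [D, Set.mem_iUnion]
    exact ⟨x, hx, self_mem_sub x⟩
  let C : Set X := {x | x ∈ D ∧ ∃ b c g, x = X.mk b c g ∧ LinearIndependent (ZMod 2) (seqOf c g)}
  have hC : C.Countable := hDc.mono (fun x hx => hx.1)
  let G : X → ℕ → V := fun x n => match x with
    | .base => 0
    | .mk b c g => seqOf c g n + e (X.mk b c g)
  obtain ⟨Φ0, hΦ0, hΦ1⟩ := star (K := ZMod 2) ad ad_inter C hC G (by
    rintro x ⟨hx, b, c, g, rfl, h⟩
    exact indep_add b c g h) d hd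
  let φ : X → ZMod 2 := ext D (fun x => Φ0 (e x))
  let Φ : V →ₗ[ZMod 2] ZMod 2 := Finsupp.linearCombination (ZMod 2) φ
  have hΦe : ∀ x, Φ (e x) = φ x := by
    intro x
    simp [Φ, e, Finsupp.linearCombination_single]
  have hΦs : ∀ c g n, Φ (seqOf c g n) = ∑ i ∈ c n, φ (g i) := by
    intro c g n
    rw [seqOf, map_sum]
    exact Finset.sum_congr rfl (fun i _ => hΦe _)
  refine ⟨Φ, ?_, ?_⟩
  · intro b c g hi
    by_cases hx : X.mk b c g ∈ D
    · have h1 := hΦ1 (X.mk b c g) ⟨hx, b, c, g, rfl, hi⟩
      have h2 := uf_le (X.mk b c g) h1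
      filter_upwards [h2] with n hn
      have h3 : Φ0 (seqOf c g n + e (X.mk b c g)) = 0 := hn
      rw [map_add] at h3
      rw [hΦs, hΦe]
      have h4 : ∑ i ∈ c n, φ (g i) = Φ0 (seqOf c g n) := by
        rw [seqOf, map_sum]
        exact Finset.sum_congr rfl (fun i _ => ext_mem D _ (g i) (hDcl b c g i hx))
      rw [h4]
      have h5 : φ (X.mk b c g) = Φ0 (e (X.mk b c g)) := ext_mem D _ _ hx
      rw [h5]
      revert h3
      generalize Φ0 (seqOf c g n) = z
      generalize Φ0 (e (X.mk b c g)) = w
      revert z w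
      decide
    · have h1 : φ (X.mk b c g) =
          if (∀ᶠ n in (uf (X.mk b c g) : Filter ℕ), ∑ i ∈ c n, φ (g i) = 1) then 1 else 0 := by
        show ext D _ (X.mk b c g) = _
        rw [ext, if_neg hx]
      by_cases h2 : ∀ᶠ n in (uf (X.mk b c g) : Filter ℕ), ∑ i ∈ c n, φ (g i) = 1
      · rw [if_pos h2] at h1
        filter_upwards [h2] with n hn
        rw [hΦs, hΦe, h1, hn]
      · rw [if_neg h2] at h1
        have h3 := Ultrafilter.eventually_not.2 h2
        filter_upwards [h3] with n hn
        rw [hΦs, hΦe, h1]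
        revert hn
        generalize ∑ i ∈ c n, φ (g i) = z
        revert z
        decide
  · have : Φ d = Φ0 d := by
      conv_rhs => rw [← Finsupp.sum_single d]
      rw [Finsupp.sum, map_sum]
      show Finsupp.linearCombination (ZMod 2) φ d = _
      rw [Finsupp.linearCombination_apply, Finsupp.sum]
      refine Finset.sum_congr rfl (fun x hx => ?_)
      have h1 : Finsupp.single x (d x) = d x • e x := by
        rw [e, Finsupp.smul_single, smul_eq_mul, mul_one]
      rw [h1, map_smul]
      congr 1
      exact ext_mem D _ x (hdD x hx)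
    rw [this, hΦ0]
    exact one_ne_zero

/-- The group. -/
abbrev H : Type := X →₀ ZMod 2

/-- The evaluation map. -/
noncomputable def ev : H →+ (Adm → ZMod 2) where
  toFun v Φ := Φ.1 v
  map_zero' := by funext Φ; exact map_zero Φ.1
  map_add' u v := by funext Φ; exact map_add Φ.1 u v

noncomputable instance : TopologicalSpace H := TopologicalSpace.induced ev inferInstance

instance : IsTopologicalAddGroup H := topologicalAddGroup_induced ev

theorem isInducing_ev : IsInducing ev := ⟨rfl⟩

theorem ev_injective : Function.Injective ev := by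
  rw [injective_iff_map_eq_zero]
  intro v hv
  by_contra hne
  obtain ⟨Φ, hΦ, h⟩ := adm_separates v hne
  exact h (congrFun hv ⟨Φ, hΦ⟩)

instance : T2Space H := T2Space.of_injective_continuous ev_injective isInducing_ev.continuous

theorem two_H (x : H) : x + x = 0 := by
  ext i
  simp only [Finsupp.coe_add, Pi.add_apply, Finsupp.coe_zero, Pi.zero_apply]
  generalize (x : X →₀ ZMod 2) i = z
  revert z
  decide

theorem tendsto_uf (b : Bool) (c : ℕ → Finset ℕ) (g : ℕ → X)
    (h : LinearIndependent (ZMod 2) (seqOf c g)) :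
    Tendsto (fun n => (seqOf c g n : H)) (uf (X.mk b c g) : Filter ℕ)
      (𝓝 (e (X.mk b c g) : H)) := by
  rw [isInducing_ev.tendsto_nhds_iff, tendsto_pi_nhds]
  rintro ⟨Φ, hΦ⟩
  refine tendsto_const_nhds.congr' ?_
  filter_upwards [hΦ b c g h] with n hn
  exact hn.symm

theorem exists_indep {S : Set V} (hS : S.Infinite) :
    ∃ f : ℕ → V, LinearIndependent (ZMod 2) f ∧ ∀ n, f n ∈ S := by
  obtain ⟨b, hbS, hspan, hli⟩ := exists_linearIndependent (ZMod 2) S
  have hb : b.Infinite := by
    intro hfin
    have h1 : (Submodule.span (ZMod 2) b : Set V).Finite := by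
      have : Module.Finite (ZMod 2) (Submodule.span (ZMod 2) b) :=
        Module.Finite.span_of_finite _ hfin
      have h2 : Finite (Submodule.span (ZMod 2) b) := Module.finite_of_finite (ZMod 2)
      exact Set.toFinite _
    rw [hspan] at h1
    exact hS (h1.subset Submodule.subset_span)
  have := hb.natEmbedding
  refine ⟨fun n => (this n : V), hli.comp _ this.injective, fun n => hbS (this n).2⟩

/-- Every independent sequence has two distinct limits along free ultrafilters. -/
theorem exists_two_limits (f : ℕ → V) (hf : LinearIndependent (ZMod 2) f) :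
    ∃ (x y : H) (p q : Ultrafilter ℕ), x ≠ y ∧ (p : Filter ℕ) ≤ cofinite ∧
      (q : Filter ℕ) ≤ cofinite ∧ Tendsto (fun n => (f n : H)) (p : Filter ℕ) (𝓝 x) ∧
      Tendsto (fun n => (f n : H)) (q : Filter ℕ) (𝓝 y) := by
  obtain ⟨c, g, rfl⟩ := exists_code_seq f
  refine ⟨e (X.mk true c g), e (X.mk false c g), uf (X.mk true c g), uf (X.mk false c g), ?_,
    uf_le_cofinite _, uf_le_cofinite _, tendsto_uf _ c g hf, tendsto_uf _ c g hf⟩
  intro h
  have := e_injective h
  injection this with h1
  cases h1

instance : CountablyCompactSpace H := by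
  refine ⟨?_⟩
  rw [isCountablyCompact_iff_infinite_subset_has_accPt]
  intro S _ hS
  obtain ⟨f, hf, hfS⟩ := exists_indep (S := S) hS
  obtain ⟨x, y, p, q, -, hp, -, hx, -⟩ := exists_two_limits f hf
  refine ⟨x, Set.mem_univ _, ?_⟩
  rw [accPt_iff_frequently]
  have hinj : Function.Injective f := hf.injective
  have h1 : ∀ᶠ n in (p : Filter ℕ), f n ≠ x ∧ f n ∈ S := by
    have : ∀ᶠ n in cofinite, f n ≠ x := by
      have := (Set.finite_singleton x).preimage (hinj.injOn (s := f ⁻¹' {x}))
      exact this.compl_mem_cofinite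
    exact (this.filter_mono hp).mono (fun n hn => ⟨hn, hfS n⟩)
  exact hx.frequently h1.frequently

/-- No nontrivial convergent sequences. -/
def NoConv (Y : Type*) [TopologicalSpace Y] : Prop :=
  ∀ f : ℕ → Y, Function.Injective f → ∀ y, ¬ Tendsto f atTop (𝓝 y)

theorem noConv_H : NoConv H := by
  intro f hf y hy
  have hS : (Set.range f).Infinite := Set.infinite_range_of_injective hf
  obtain ⟨h, hh, hhS⟩ := exists_indep (S := Set.range f) hS
  choose k hk using hhS
  have hkinj : Function.Injective k := by
    intro a b hab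
    apply hh.injective
    rw [← hk a, ← hk b, hab]
  have h1 : Tendsto (fun n => (h n : H)) cofinite (𝓝 y) := by
    have : (fun n => (h n : H)) = fun n => f (k n) := funext (fun n => (hk n).symm)
    rw [this]
    have h2 := hkinj.tendsto_cofinite
    rw [Nat.cofinite_eq_atTop] at h2 ⊢
    exact hy.comp h2
  obtain ⟨x, z, p, q, hxz, hp, hq, hx, hz⟩ := exists_two_limits h hh
  apply hxz
  rw [tendsto_nhds_unique hx (h1.mono_left hp), tendsto_nhds_unique hz (h1.mono_left hq)]

theorem mk_H_le : #H ≤ 𝔠 := by
  have : #(X →₀ ZMod 2) ≤ 𝔠 := by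
    by_cases h : Infinite X
    · rw [Cardinal.mk_finsupp_of_infinite]
      refine max_le mk_X_le ?_
      exact (Cardinal.mk_le_aleph0).trans Cardinal.aleph0_le_continuum
    · rw [not_infinite_iff_finite] at h
      exact (Cardinal.mk_le_aleph0).trans Cardinal.aleph0_le_continuum
  exact this

instance : Infinite H := by
  have hX : Infinite X := by
    let F : ℕ → X := fun n => Nat.rec X.base (fun _ x => X.mk true (fun _ => ∅) (fun _ => x)) n
    refine Infinite.of_injective F ?_
    intro n
    induction n with
    | zero =>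
      intro m h
      cases m with
      | zero => rfl
      | succ m => cases h
    | succ n ih =>
      intro m h
      cases m with
      | zero => cases h
      | succ m =>
        have h1 : X.mk true (fun _ => ∅) (fun _ => F n) = X.mk true (fun _ => ∅) (fun _ => F m) := h
        injection h1 with _ _ h2
        have h3 : F n = F m := congrFun h2 0
        rw [ih h3]
  exact Infinite.of_injective (fun x : X => (e x : H)) e_injective

end Pool.Agent.R603.CCGroup
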