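import Mathlib
import Pool.Agent.R603.CCGroup.Group

/-!
In a regular countably compact space without nontrivial convergent sequences every infinite set
has at least continuum many accumulation points.
-/

namespace Pool.Agent.R603.CCGroup

open Cardinal Filter Set Topology

variable {Y : Type} [TopologicalSpace Y]

theorem exists_split [T3Space Y] [CountablyCompactSpace Y] (hY : NoConv Y) (S : Set Y)
    (hS : S.Infinite) : ∃ S0 S1 : Set Y, S0.Infinite ∧ S1.Infinite ∧ S0 ⊆ S ∧ S1 ⊆ S ∧
      Disjoint (closure S0) (closure S1) := by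
  obtain ⟨y, -, hy⟩ := CountablyCompactSpace.isCountablyCompact_univ.exists_accPt_of_infinite
    (Set.subset_univ S) hS
  have h1 : ∃ U ∈ 𝓝 y, (S \ U).Infinite := by
    by_contra hcon
    push Not at hcon
    let f := hS.natEmbedding
    refine hY (fun n => (f n : Y)) (Subtype.val_injective.comp f.injective) y ?_
    rw [← Nat.cofinite_eq_atTop]
    intro U hU
    have h2 : (S \ U).Finite := hcon U hU
    rw [Filter.mem_map, Filter.mem_cofinite]
    have h3 : ((fun n => (f n : Y)) ⁻¹' U)ᶜ ⊆ (fun n => (f n : Y)) ⁻¹' (S \ U) := by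
      intro n hn
      exact ⟨(f n).2, hn⟩
    exact (h2.preimage ((Subtype.val_injective.comp f.injective).injOn)).subset h3
  obtain ⟨U, hU, hUS⟩ := h1
  have hUS' : (S \ interior U).Infinite := hUS.mono (Set.sdiff_subset_sdiff_right interior_subset)
  have hU' : interior U ∈ 𝓝 y := interior_mem_nhds.2 hU
  obtain ⟨W, hW, hWc, hWU⟩ := exists_mem_nhds_isClosed_subset hU'
  refine ⟨S ∩ W, S \ interior U, ?_, hUS', Set.inter_subset_left, Set.sdiff_subset, ?_⟩
  · have := hy.nhds_inter hW
    rw [Set.inter_comm]
    exact Set.Infinite.of_accPt this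
  · have h1 : closure (S ∩ W) ⊆ interior U := (closure_minimal Set.inter_subset_right hWc).trans hWU
    have h2 : closure (S \ interior U) ⊆ (interior U)ᶜ :=
      closure_minimal (fun x hx => hx.2) isOpen_interior.isClosed_compl
    exact Set.disjoint_of_subset h1 h2 disjoint_compl_right

theorem continuum_le_accPt [T3Space Y] [CountablyCompactSpace Y] (hY : NoConv Y) (S : Set Y)
    (hS : S.Infinite) : 𝔠 ≤ #{y | AccPt y (𝓟 S)} := by
  classical
  choose s0 s1 h0 h1 h0s h1s hd using exists_split hY
  let sp : {S : Set Y // S.Infinite} → Bool → {S : Set Y // S.Infinite} := fun S b =>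
    if b then ⟨s0 S.1 S.2, h0 _ _⟩ else ⟨s1 S.1 S.2, h1 _ _⟩
  have hsp : ∀ S b, (sp S b).1 ⊆ S.1 := by
    intro S b
    cases b
    · exact h1s _ _
    · exact h0s _ _
  have hspd : ∀ S b c, b ≠ c → Disjoint (closure (sp S b).1) (closure (sp S c).1) := by
    intro S b c hbc
    cases b <;> cases c
    · exact absurd rfl hbc
    · exact (hd _ _).symm
    · exact hd _ _
    · exact absurd rfl hbc
  let node : (ℕ → Bool) → ℕ → {S : Set Y // S.Infinite} := fun a n =>
    Nat.rec ⟨S, hS⟩ (fun n T => sp T (a n)) n
  have hnode : ∀ a n, node a (n + 1) = sp (node a n) (a n) := fun a n => rfl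
  have hmono : ∀ a n m, n ≤ m → (node a m).1 ⊆ (node a n).1 := by
    intro a n m hnm
    induction hnm with
    | refl => exact subset_rfl
    | step _ ih => exact (hsp _ _).trans ih
  have hagree : ∀ a b n, (∀ i < n, a i = b i) → node a n = node b n := by
    intro a b n
    induction n with
    | zero => intro _; rfl
    | succ n ih =>
      intro h
      rw [hnode, hnode, ih (fun i hi => h i (Nat.lt_succ_of_lt hi)), h n (Nat.lt_succ_self n)]
  have hpt : ∀ a, ∃ y, AccPt y (𝓟 S) ∧ ∀ n, y ∈ closure (node a n).1 := by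
    intro a
    obtain ⟨f, hf, hf'⟩ := exists_seq_of_forall_finset_exists
      (fun p : ℕ × Y => p.2 ∈ (node a p.1).1) (fun p q => p.1 < q.1 ∧ p.2 ≠ q.2) (by
        intro s _
        let N := s.sup Prod.fst + 1
        obtain ⟨y, hy, hy'⟩ := (node a N).2.exists_notMem_finset (s.image Prod.snd)
        refine ⟨(N, y), hy, fun p hp => ⟨?_, ?_⟩⟩
        · exact Nat.lt_succ_of_le (Finset.le_sup (f := Prod.fst) hp)
        · rintro h
          exact hy' (Finset.mem_image.2 ⟨p, hp, h⟩))
    have hsm : StrictMono (fun n => (f n).1) := fun m n h => (hf' m n h).1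
    have hinj : Function.Injective (fun n => (f n).2) := by
      intro m n hmn
      by_contra hne
      rcases lt_or_gt_of_ne hne with h | h
      · exact (hf' m n h).2 hmn
      · exact (hf' n m h).2 hmn.symm
    have hmem : ∀ n, (f n).2 ∈ (node a n).1 := fun n => hmono a _ _ (hsm.id_le n) (hf n)
    obtain ⟨y, -, hy⟩ := CountablyCompactSpace.isCountablyCompact_univ.exists_accPt_of_infinite
      (Set.subset_univ _) (Set.infinite_range_of_injective hinj)
    refine ⟨y, hy.mono (Filter.principal_mono.2 ?_), fun n => ?_⟩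
    · rintro _ ⟨n, rfl⟩
      exact hmono a 0 n (Nat.zero_le n) (hmem n)
    · rw [mem_closure_iff_nhds]
      intro U hU
      have h1 := Set.Infinite.of_accPt (hy.nhds_inter hU)
      have h2 : ((fun n => (f n).2) '' Set.Iio n).Finite := (Set.finite_Iio n).image _
      obtain ⟨z, hz, hz'⟩ := (h1.sdiff h2).nonempty
      obtain ⟨k, rfl⟩ := hz.2
      refine ⟨(f k).2, hz.1, ?_⟩
      have hk : n ≤ k := by
        by_contra hcon
        exact hz' ⟨k, not_le.1 hcon, rfl⟩
      exact hmono a n k hk (hmem k)
  choose y hy hyc using hpt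
  have hinj : Function.Injective (fun a => (⟨y a, hy a⟩ : {y | AccPt y (𝓟 S)})) := by
    intro a b hab
    by_contra hne
    have hab' : y a = y b := congrArg Subtype.val hab
    have hex : ∃ n, a n ≠ b n := by
      by_contra hcon
      push Not at hcon
      exact hne (funext hcon)
    have hn := Nat.find_spec hex
    have hlt : ∀ i < Nat.find hex, a i = b i := fun i hi => not_not.1 (Nat.find_min hex hi)
    have h1 := hyc a (Nat.find hex + 1)
    have h2 := hyc b (Nat.find hex + 1)
    rw [hnode] at h1 h2
    rw [← hagree a b _ hlt, ← hab'] at h2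
    exact Set.disjoint_left.1 (hspd _ _ _ hn) h1 h2
  have h1 := Cardinal.mk_le_of_injective hinj
  have h2 : #(ℕ → Bool) = 𝔠 := by simp
  rw [h2] at h1
  exact h1

end Pool.Agent.R603.CCGroup
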