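import Mathlib
import Pool.Agent.R603.CCGroup.Group
import Pool.Agent.R603.CCGroup.Tree

/-!
A countably compact group whose square is not countably compact.
-/

namespace Pool.Agent.R603.CCGroup

open Cardinal Filter Set Topology

theorem exists_rec {O K : Type} [LinearOrder O] [WellFoundedLT O] (R : O → Set K → K → Prop)
    (h : ∀ o s, ∃ y, R o s y) : ∃ x : O → K, ∀ o, R o (x '' Set.Iio o) (x o) := by
  classical
  choose c hc using h
  let F : ∀ o : O, (∀ j : O, j < o → K) → K := fun o r => c o {y | ∃ j, ∃ hj : j < o, r j hj = y}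
  let x : O → K := WellFounded.fix (wellFounded_lt (α := O)) F
  refine ⟨x, fun o => ?_⟩
  have h1 : x o = F o (fun j _ => x j) := WellFounded.fix_eq _ _ _
  have h2 : {y | ∃ j, ∃ _ : j < o, x j = y} = x '' Set.Iio o := by
    ext y
    simp [Set.mem_image]
  rw [h1, ← h2]
  exact hc _ _

theorem mk_span_lt {K : Type} [AddCommGroup K] [Module (ZMod 2) K] (s : Set K) (hs : #s < 𝔠) :
    #(Submodule.span (ZMod 2) s) < 𝔠 := by
  have h1 : #(Submodule.span (ZMod 2) s) ≤ #(s →₀ ZMod 2) := by
    have h2 : Submodule.span (ZMod 2) s =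
        LinearMap.range (Finsupp.linearCombination (ZMod 2) (Subtype.val : s → K)) := by
      rw [Finsupp.range_linearCombination, Subtype.range_coe]
    rw [h2]
    exact Cardinal.mk_le_of_surjective
      (Finsupp.linearCombination (ZMod 2) (Subtype.val : s → K)).surjective_rangeRestrict
  refine h1.trans_lt ?_
  by_cases h : Infinite s
  · rw [Cardinal.mk_finsupp_of_infinite]
    refine max_lt hs ?_
    exact (Cardinal.mk_le_aleph0).trans_lt Cardinal.aleph0_lt_continuum
  · rw [not_infinite_iff_finite] at h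
    exact (Cardinal.mk_le_aleph0).trans_lt Cardinal.aleph0_lt_continuum

/-- The automorphism of order three of the square. -/
noncomputable def phi : (H × H) →ₗ[ZMod 2] (H × H) :=
  (LinearMap.snd (ZMod 2) H H).prod (LinearMap.fst (ZMod 2) H H + LinearMap.snd (ZMod 2) H H)

theorem phi_apply (p : H × H) : phi p = (p.2, p.1 + p.2) := rfl

theorem phi_sq (p : H × H) : phi (phi p) = p + phi p := by
  rw [phi_apply, phi_apply]
  ext1
  · rfl
  · show p.2 + (p.1 + p.2) = p.2 + (p.1 + p.2)
    rfl

theorem two_K (p : H × H) : p + p = 0 := by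
  ext1
  · exact two_H _
  · exact two_H _

theorem phi_cube (p : H × H) : phi (phi (phi p)) = p := by
  rw [phi_sq (phi p), phi_sq p, add_comm, add_assoc, two_K, add_zero]

theorem continuous_phi : Continuous phi := by
  show Continuous (fun p : H × H => (p.2, p.1 + p.2))
  fun_prop

/-- The countable subspace. -/
theorem exists_E : ∃ E : Submodule (ZMod 2) (H × H), (E : Set (H × H)).Countable ∧
    (E : Set (H × H)).Infinite ∧ ∀ p ∈ E, phi p ∈ E := by
  let f := Infinite.natEmbedding H
  let E0 : Submodule (ZMod 2) H := Submodule.span (ZMod 2) (Set.range f)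
  have hE0c : Countable E0 := by
    have : Function.Surjective
      (Finsupp.linearCombination (ZMod 2) f).rangeRestrict :=
        (Finsupp.linearCombination (ZMod 2) f).surjective_rangeRestrict
    have h1 : Countable (LinearMap.range (Finsupp.linearCombination (ZMod 2) f)) :=
      this.countable
    rw [Finsupp.range_linearCombination] at h1
    exact h1
  have hE0i : (E0 : Set H).Infinite :=
    (Set.infinite_range_of_injective f.injective).mono Submodule.subset_span
  refine ⟨E0.prod E0, ?_, ?_, ?_⟩
  · rw [Submodule.prod_coe]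
    have : (E0 : Set H).Countable := Set.to_countable _
    exact this.prod this
  · rw [Submodule.prod_coe]
    exact Set.infinite_prod.2 (Or.inl ⟨hE0i, ⟨0, E0.zero_mem⟩⟩)
  · rintro p ⟨h1, h2⟩
    exact ⟨h2, E0.add_mem h1 h2⟩

/-- The `phi`-invariant hull. -/
noncomputable def hull (E : Submodule (ZMod 2) (H × H)) (s : Set (H × H)) : Submodule (ZMod 2) (H × H) :=
  Submodule.span (ZMod 2) ((E : Set (H × H)) ∪ s ∪ phi '' s)

theorem phi_hull (E : Submodule (ZMod 2) (H × H)) (hE : ∀ p ∈ E, phi p ∈ E) (s : Set (H × H))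
    (p : H × H) (hp : p ∈ hull E s) : phi p ∈ hull E s := by
  have : hull E s ≤ (hull E s).comap phi := by
    unfold hull
    rw [Submodule.span_le]
    intro q hq
    rw [SetLike.mem_coe, Submodule.mem_comap]
    rcases hq with (hq | hq) | ⟨q, hq, rfl⟩
    · exact Submodule.subset_span (Or.inl (Or.inl (hE q hq)))
    · exact Submodule.subset_span (Or.inr ⟨q, hq, rfl⟩)
    · rw [phi_sq]
      exact Submodule.add_mem _ (Submodule.subset_span (Or.inl (Or.inr hq)))
        (Submodule.subset_span (Or.inr ⟨q, hq, rfl⟩))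
  exact this hp

theorem mk_hull_lt (E : Submodule (ZMod 2) (H × H)) (hE : (E : Set (H × H)).Countable)
    (s : Set (H × H)) (hs : #s < 𝔠) : #(hull E s) < 𝔠 := by
  apply mk_span_lt
  have h1 : #((E : Set (H × H))) < 𝔠 := (Cardinal.le_aleph0_iff_set_countable.2 hE).trans_lt
    Cardinal.aleph0_lt_continuum
  have h2 : #(phi '' s) < 𝔠 := Cardinal.mk_image_le.trans_lt hs
  have h3 : ℵ₀ ≤ 𝔠 := Cardinal.aleph0_le_continuum
  exact (Cardinal.mk_union_le _ _).trans_lt (Cardinal.add_lt_of_lt h3
    ((Cardinal.mk_union_le _ _).trans_lt (Cardinal.add_lt_of_lt h3 h1 hs)) h2)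

theorem noConv_prod : NoConv (H × H) := by
  intro f hf y hy
  have h1 := (continuous_fst.tendsto y).comp hy
  have h2 := (continuous_snd.tendsto y).comp hy
  have key : ∀ g : ℕ → H, ∀ z : H, Tendsto g atTop (𝓝 z) → (Set.range g).Finite := by
    intro g z hg
    by_contra hcon
    have hinf : (Set.range g).Infinite := hcon
    let u := hinf.natEmbedding
    choose k hk using fun n => (u n).2
    have hkinj : Function.Injective k := by
      intro a b hab
      apply u.injective
      apply Subtype.ext
      rw [← hk a, ← hk b, hab]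
    refine noConv_H (fun n => g (k n)) ?_ z ?_
    · intro a b hab
      apply u.injective
      apply Subtype.ext
      rw [← hk a, ← hk b]
      exact hab
    · have h2 := hkinj.tendsto_cofinite
      rw [Nat.cofinite_eq_atTop] at h2
      exact hg.comp h2
  have h3 := key _ _ h1
  have h4 := key _ _ h2
  have h5 : (Set.range f).Finite := by
    refine (h3.prod h4).subset ?_
    rintro _ ⟨n, rfl⟩
    exact ⟨⟨n, rfl⟩, ⟨n, rfl⟩⟩
  exact Set.infinite_range_of_injective hf h5

theorem exists_choice [CountablyCompactSpace (H × H)] (E : Submodule (ZMod 2) (H × H))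
    (hE : (E : Set (H × H)).Countable) :
    ∃ (O : Type) (_ : LinearOrder O) (x : O → H × H),
      (∀ f : ℕ → H × H, Function.Injective f → ∃ o, AccPt (x o) (𝓟 (Set.range f))) ∧
      ∀ o, x o ∉ hull E (x '' Set.Iio o) := by
  let I : Type := {f : ℕ → H × H // Function.Injective f}
  have hI : #I ≤ 𝔠 := by
    refine (Cardinal.mk_subtype_le _).trans ?_
    rw [← Cardinal.power_def, Cardinal.mk_nat, Cardinal.mk_prod, Cardinal.lift_id]
    refine (Cardinal.power_le_power_right (mul_le_mul' mk_H_le mk_H_le)).trans ?_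
    rw [Cardinal.continuum_mul_self, Cardinal.continuum_power_aleph0]
  have hIne : Nonempty I := ⟨⟨_, (Infinite.natEmbedding (H × H)).injective⟩⟩
  have hO : #I ≤ #((𝔠 : Cardinal.{0}).ord.ToType) := by
    rw [Cardinal.mk_ord_toType]; exact hI
  obtain ⟨j⟩ := Cardinal.le_def _ _ |>.1 hO
  let t : (𝔠 : Cardinal.{0}).ord.ToType → I := Function.invFun j
  have ht : Function.Surjective t := Function.invFun_surjective j.injective
  obtain ⟨x, hx⟩ := exists_rec (O := (𝔠 : Cardinal.{0}).ord.ToType) (K := H × H)
    (fun o s y => #s < 𝔠 → AccPt y (𝓟 (Set.range (t o).1)) ∧ y ∉ hull E s) (by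
      intro o s
      by_cases hs : #s < 𝔠
      · have h1 := continuum_le_accPt noConv_prod (Set.range (t o).1)
          (Set.infinite_range_of_injective (t o).2)
        have h2 := mk_hull_lt E hE s hs
        have h3 : ¬ {y | AccPt y (𝓟 (Set.range (t o).1))} ⊆ (hull E s : Set (H × H)) := by
          intro h
          exact absurd (h1.trans (Cardinal.mk_le_mk_of_subset h)) (not_le.2 h2)
        rw [Set.not_subset] at h3
        obtain ⟨y, hy, hy'⟩ := h3
        exact ⟨y, fun _ => ⟨hy, hy'⟩⟩
      · exact ⟨0, fun h => absurd h hs⟩)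
  have hlt : ∀ o, #(x '' Set.Iio o) < 𝔠 := fun o =>
    by
    refine Cardinal.mk_image_le.trans_lt ((Cardinal.mk_Iio_lt o (by simp)).trans_eq ?_)
    simp
  refine ⟨_, inferInstance, x, fun f hf => ?_, fun o => (hx o (hlt o)).2⟩
  obtain ⟨o, ho⟩ := ht ⟨f, hf⟩
  refine ⟨o, ?_⟩
  have := (hx o (hlt o)).1
  rw [ho] at this
  exact this

/-- Independence of the chosen points over `GF(4)`. -/
theorem indep_choice {O : Type} [LinearOrder O] (E : Submodule (ZMod 2) (H × H))
    (hEp : ∀ p ∈ E, phi p ∈ E) (x : O → H × H) (hx : ∀ o, x o ∉ hull E (x '' Set.Iio o))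
    (a b : O →₀ ZMod 2) (y : H × H) (hy : y ∈ E)
    (h : y + Finsupp.linearCombination (ZMod 2) x a + phi (Finsupp.linearCombination (ZMod 2) x b)
      = 0) : a = 0 ∧ b = 0 := by
  classical
  by_contra hcon
  have hne : (a.support ∪ b.support).Nonempty := by
    rw [Finset.nonempty_iff_ne_empty]
    intro h0
    rw [Finset.union_eq_empty, Finsupp.support_eq_empty, Finsupp.support_eq_empty] at h0
    exact hcon h0
  let o := (a.support ∪ b.support).max' hne
  have ho : o ∈ a.support ∪ b.support := Finset.max'_mem _ _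
  have hmax : ∀ i ∈ a.support ∪ b.support, i ≤ o := fun i hi => Finset.le_max' _ i hi
  let M := hull E (x '' Set.Iio o)
  have hMx : ∀ i < o, x i ∈ M := fun i hi =>
    Submodule.subset_span (Or.inl (Or.inr ⟨i, hi, rfl⟩))
  have hMphi : ∀ p ∈ M, phi p ∈ M := phi_hull E hEp _
  have hlc : ∀ c : O →₀ ZMod 2, (∀ i ∈ c.support, i ≤ o) →
      ∃ m ∈ M, Finsupp.linearCombination (ZMod 2) x c = c o • x o + m := by
    intro c hc
    refine ⟨Finsupp.linearCombination (ZMod 2) x (c.erase o), ?_, ?_⟩
    · rw [Finsupp.linearCombination_apply, Finsupp.sum]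
      refine Submodule.sum_mem _ (fun i hi => Submodule.smul_mem _ _ (hMx i ?_))
      rw [Finsupp.support_erase, Finset.mem_erase] at hi
      exact lt_of_le_of_ne (hc i hi.2) hi.1
    · conv_lhs => rw [← Finsupp.single_add_erase o c]
      rw [map_add, Finsupp.linearCombination_single]
  obtain ⟨m1, hm1, h1⟩ := hlc a (fun i hi => hmax i (Finset.mem_union_left _ hi))
  obtain ⟨m2, hm2, h2⟩ := hlc b (fun i hi => hmax i (Finset.mem_union_right _ hi))
  rw [h1, h2, map_add, map_smul] at h
  have hyM : y ∈ M := Submodule.subset_span (Or.inl (Or.inl hy))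
  have h3 : a o • x o + b o • phi (x o) ∈ M := by
    have h4 : (a o • x o + b o • phi (x o)) + (y + m1 + phi m2) = 0 := by
      rw [← h]; abel
    have h5 : a o • x o + b o • phi (x o) = - (y + m1 + phi m2) := eq_neg_of_add_eq_zero_left h4
    rw [h5]
    exact Submodule.neg_mem _ (Submodule.add_mem _ (Submodule.add_mem _ hyM hm1) (hMphi _ hm2))
  have hz : ∀ z : ZMod 2, z = 0 ∨ z = 1 := by decide
  rcases hz (a o) with ha | ha <;> rcases hz (b o) with hb | hb
  · rw [Finset.mem_union, Finsupp.mem_support_iff, Finsupp.mem_support_iff] at ho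
    rcases ho with ho | ho
    · exact ho ha
    · exact ho hb
  · rw [ha, hb, zero_smul, zero_add, one_smul] at h3
    have h4 := hMphi _ (hMphi _ h3)
    rw [phi_cube] at h4
    exact hx o h4
  · rw [ha, hb, zero_smul, add_zero, one_smul] at h3
    exact hx o h3
  · rw [ha, hb, one_smul, one_smul, ← phi_sq] at h3
    have h4 := hMphi _ h3
    rw [phi_cube] at h4
    exact hx o h4

theorem main [CountablyCompactSpace (H × H)] : ∃ G : Submodule (ZMod 2) (H × H),
    CountablyCompactSpace G ∧ ¬ CountablyCompactSpace (G × G) := by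
  obtain ⟨E, hEc, hEi, hEp⟩ := exists_E
  obtain ⟨O, _, x, hx1, hx2⟩ := exists_choice E hEc
  let G : Submodule (ZMod 2) (H × H) := E ⊔ Submodule.span (ZMod 2) (Set.range x)
  have hGcc : IsCountablyCompact (G : Set (H × H)) := by
    rw [isCountablyCompact_iff_infinite_subset_has_accPt]
    intro S _ hS
    let f := hS.natEmbedding
    obtain ⟨o, ho⟩ := hx1 (fun n => (f n : H × H)) (Subtype.val_injective.comp f.injective)
    refine ⟨x o, ?_, ho.mono (Filter.principal_mono.2 ?_)⟩
    · exact Submodule.mem_sup_right (Submodule.subset_span ⟨o, rfl⟩)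
    · rintro _ ⟨n, rfl⟩
      exact (f n).2
  have hG : ∀ p ∈ G, phi p ∈ G → p ∈ E := by
    intro p hp hp'
    rw [Submodule.mem_sup] at hp hp'
    obtain ⟨u, hu, v, hv, huv⟩ := hp
    obtain ⟨u', hu', v', hv', huv'⟩ := hp'
    rw [Finsupp.mem_span_range_iff_exists_finsupp] at hv hv'
    obtain ⟨b, hb⟩ := hv
    obtain ⟨a, ha⟩ := hv'
    have hb' : Finsupp.linearCombination (ZMod 2) x b = v := hb
    have ha' : Finsupp.linearCombination (ZMod 2) x a = v' := ha
    have h := indep_choice E hEp x hx2 a b (u' + phi u) (E.add_mem hu' (hEp u hu)) (by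
      rw [hb', ha']
      have h1 : phi u + phi v = u' + v' := by rw [← map_add, huv, huv']
      have h2 : u' + phi u + v' + phi v = (u' + v') + (phi u + phi v) := by abel
      rw [h2, h1, two_K])
    rw [h.2, map_zero] at hb'
    rw [← huv, ← hb', add_zero]
    exact hu
  refine ⟨G, isCountablyCompact_iff_countablyCompactSpace.1 hGcc, fun hcc => ?_⟩
  let F : Set (G × G) := {p | (p.2 : H × H) = phi p.1}
  have hF : IsClosed F := by
    refine isClosed_eq ?_ ?_
    · exact continuous_subtype_val.comp continuous_snd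
    · exact continuous_phi.comp (continuous_subtype_val.comp continuous_fst)
  have hFcc : IsCountablyCompact F := hF.isCountablyCompact
  have hE : IsCountablyCompact (E : Set (H × H)) := by
    have h1 := hFcc.image (f := fun p : G × G => (p.1 : H × H))
      (continuous_subtype_val.comp continuous_fst)
    have h2 : (fun p : G × G => (p.1 : H × H)) '' F = (E : Set (H × H)) := by
      ext p
      constructor
      · rintro ⟨⟨q, r⟩, hqr, rfl⟩
        refine hG q q.2 ?_
        have : (r : H × H) = phi q := hqr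
        rw [← this]
        exact r.2
      · intro hp
        exact ⟨(⟨p, Submodule.mem_sup_left hp⟩, ⟨phi p, Submodule.mem_sup_left (hEp p hp)⟩),
          rfl, rfl⟩
    rw [h2] at h1
    exact h1
  have hEs : CountablyCompactSpace (E : Set (H × H)) :=
    isCountablyCompact_iff_countablyCompactSpace.1 hE
  have hEn : NoConv (E : Set (H × H)) := by
    intro f hf y hy
    exact noConv_prod (fun n => (f n : H × H)) (Subtype.val_injective.comp hf) y
      ((continuous_subtype_val.tendsto y).comp hy)
  have : Infinite (E : Set (H × H)) := hEi.to_subtype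
  have h1 := continuum_le_accPt hEn Set.univ Set.infinite_univ
  have h2 := h1.trans (Cardinal.mk_set_le _)
  have h3 : #(E : Set (H × H)) ≤ ℵ₀ := Cardinal.le_aleph0_iff_set_countable.2 hEc
  exact absurd (h2.trans h3) (not_le.2 Cardinal.aleph0_lt_continuum)

end Pool.Agent.R603.CCGroup
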